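import Mathlib
import Pool.Agent.H11.PsCore

namespace H11.Ps

/-- the two edges have no common vertex. -/
def Disj {V : Type} (e g : Sym2 V) : Prop := ∀ v, v ∈ e → v ∉ g

/-- `f` is `G`-blocking on `H`: no copy of `G` in `H` (image of an injective homomorphism `φ`)
is `f`-exclusive. -/
def Blocking {W V : Type} (G : SimpleGraph W) (H : SimpleGraph V) (f : Sym2 V → Sym2 V) : Prop :=
  ∀ φ : G →g H, Function.Injective φ → ¬ ∀ e ∈ G.edgeSet, ∀ w, φ w ∉ f (e.map φ)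

/-- the host-graph parameter `s(n, G)`. -/
noncomputable def s {W : Type} (n : ℕ) (G : SimpleGraph W) : ℕ :=
  sSup {k | ∃ (H : SimpleGraph (Fin n)) (f : Sym2 (Fin n) → Sym2 (Fin n)),
    (∀ e ∈ H.edgeSet, f e ∈ H.edgeSet ∧ Disj e (f e)) ∧ Blocking G H f ∧ k = H.edgeSet.ncard}

/-- the global parameter `p(n, G)`. -/
noncomputable def p {W : Type} (n : ℕ) (G : SimpleGraph W) : ℕ :=
  sSup {k | k ≤ n.choose 2 ∧ ∃ f : Sym2 (Fin n) → Sym2 (Fin n),
    (∀ e ∈ (⊤ : SimpleGraph (Fin n)).edgeSet, f e ∈ (⊤ : SimpleGraph (Fin n)).edgeSet) ∧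
    k ≤ {e | e ∈ (⊤ : SimpleGraph (Fin n)).edgeSet ∧ Disj e (f e)}.ncard ∧ Blocking G ⊤ f}

def tbl : List (Sym2 (Fin 8) × Sym2 (Fin 8)) :=
  [(s(0, 1), s(2, 3)), (s(0, 2), s(3, 5)), (s(0, 3), s(2, 7)), (s(1, 2), s(0, 3)),
   (s(1, 3), s(0, 2)), (s(2, 3), s(5, 7)), (s(2, 5), s(1, 6)), (s(3, 7), s(1, 4)),
   (s(4, 5), s(2, 7)), (s(4, 6), s(5, 7)), (s(4, 7), s(5, 6)), (s(5, 6), s(4, 7)),
   (s(5, 7), s(2, 3)), (s(6, 7), s(3, 5))]

def f0 (e : Sym2 (Fin 8)) : Sym2 (Fin 8) := (tbl.lookup e).getD e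

theorem path_blocking {V : Type} (H : SimpleGraph V) (f : Sym2 V → Sym2 V) :
    Blocking (SimpleGraph.pathGraph 3) H f ↔ ∀ a v b, a ≠ b → H.Adj a v → H.Adj v b →
      ¬ ∀ w, w = a ∨ w = v ∨ w = b → w ∉ f s(a, v) ∧ w ∉ f s(v, b) := by
  have a01 : (SimpleGraph.pathGraph 3).Adj 0 1 := by simp [SimpleGraph.pathGraph_adj]
  have a12 : (SimpleGraph.pathGraph 3).Adj 1 2 := by simp [SimpleGraph.pathGraph_adj]
  have hadj : ∀ i j, (SimpleGraph.pathGraph 3).Adj i j →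
      (i = 0 ∧ j = 1) ∨ (i = 1 ∧ j = 0) ∨ (i = 1 ∧ j = 2) ∨ (i = 2 ∧ j = 1) := by
    intro i j; rw [SimpleGraph.pathGraph_adj]; revert i j; decide
  constructor
  · intro h a v b hab h1 h2 hw
    refine h ⟨![a, v, b], fun {i j} hij => ?_⟩ ?_ ?_
    · rcases hadj i j hij with ⟨rfl, rfl⟩ | ⟨rfl, rfl⟩ | ⟨rfl, rfl⟩ | ⟨rfl, rfl⟩
      exacts [h1, h1.symm, h2, h2.symm]
    · intro i j hij
      have := h1.ne; have := h2.ne
      fin_cases i <;> fin_cases j <;> simp_all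
    · intro e he w
      have hw' := hw (![a, v, b] w) (by fin_cases w <;> simp)
      induction e using Sym2.ind with
      | _ i j =>
        rcases hadj i j he with ⟨rfl, rfl⟩ | ⟨rfl, rfl⟩ | ⟨rfl, rfl⟩ | ⟨rfl, rfl⟩
        · exact hw'.1
        · rw [Sym2.eq_swap]; exact hw'.1
        · exact hw'.2
        · rw [Sym2.eq_swap]; exact hw'.2
  · intro h φ hφ hw
    refine h (φ 0) (φ 1) (φ 2) (hφ.ne (by decide)) (φ.map_adj a01) (φ.map_adj a12) ?_
    rintro w (rfl | rfl | rfl) <;> exact ⟨hw s(0, 1) a01 _, hw s(1, 2) a12 _⟩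

theorem p_ge : 14 ≤ p 8 (SimpleGraph.pathGraph 3) := by
  refine le_csSup ⟨_, fun k hk => hk.1⟩ ⟨by decide, f0, ?_, ?_, ?_⟩
  · intro e
    induction e using Sym2.ind with
    | _ a b =>
      simp only [SimpleGraph.edgeSet_top, Set.mem_compl_iff, Sym2.mem_diagSet]
      revert a b; decide +kernel
  · have : ((tbl.map Prod.fst).toFinset : Set (Sym2 (Fin 8))) ⊆
        {e | e ∈ (⊤ : SimpleGraph (Fin 8)).edgeSet ∧ Disj e (f0 e)} := by
      have : ∀ e ∈ tbl.map Prod.fst, ¬ e.IsDiag ∧ ∀ v, v ∈ e → v ∉ f0 e := by decide +kernel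
      intro e he
      have := this e (by simpa using he)
      exact ⟨by simpa using this.1, this.2⟩
    have h2 := Set.ncard_le_ncard this (Set.toFinite _)
    rw [Set.ncard_coe_finset] at h2
    exact le_trans (by decide +kernel) h2
  · rw [path_blocking]
    simp only [SimpleGraph.top_adj]
    decide +kernel

theorem s_le : s 8 (SimpleGraph.pathGraph 3) ≤ 13 := by
  classical
  refine csSup_le' ?_
  rintro k ⟨H, f, hf, hb, rfl⟩
  by_contra hk
  rw [path_blocking] at hb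
  have hk : 14 ≤ H.edgeFinset.card := by
    rw [← Set.ncard_coe_finset, SimpleGraph.coe_edgeFinset]; omega
  obtain ⟨v, hv⟩ : ∃ v, 4 ≤ H.degree v := by
    by_contra h
    push Not at h
    have h1 := H.sum_degrees_eq_twice_card_edges
    have h2 : ∑ v, H.degree v ≤ ∑ _v : Fin 8, 3 := Finset.sum_le_sum fun v _ => by
      have := h v; omega
    simp at h2; omega
  obtain ⟨N, hN, hc⟩ := Finset.exists_subset_card_eq (s := H.neighborFinset v) hv
  let ι := N.orderEmbOfFin hc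
  have hι : ∀ i, H.Adj v (ι i) := fun i => by
    simpa using hN (N.orderEmbOfFin_mem hc i)
  obtain ⟨σ, hσ⟩ := Equiv.Perm.exists_extending_pair
    (f := (Fin.castLE (by norm_num) : Fin 5 → Fin 8)) (g := Fin.cons v ι) (Fin.castLE_injective _)
    (Fin.cons_injective_iff.2 ⟨by rintro ⟨i, hi⟩; exact (hι i).ne hi.symm, ι.injective⟩)
  let τ : ℕ → Fin 8 := fun a => σ (Fin.ofNat 8 a)
  have τinj : ∀ x y, x < 8 → y < 8 → x ≠ y → τ x ≠ τ y := fun x y hx hy h e => h (by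
    have := congrArg Fin.val (σ.injective e)
    simp only [Fin.ofNat, Nat.mod_eq_of_lt hx, Nat.mod_eq_of_lt hy] at this
    exact this)
  have τsurj : ∀ u, ∃ w < 8, τ w = u := fun u =>
    ⟨(σ.symm u).val, (σ.symm u).2, by simp [τ]⟩
  refine core (A := fun a b => H.Adj (τ a) (τ b))
    (T := fun a b x => H.Adj (τ a) (τ b) ∧ τ x ∈ f s(τ a, τ b)) (fun a b h => h.symm)
    (fun a b x h => ⟨h.1.symm, by rw [Sym2.eq_swap]; exact h.2⟩) ?_ ?_ ?_ ?_ ?_ ?_ ?_
  · rintro a b x y z hx hy hz n1 n2 n3 ⟨-, h1⟩ ⟨-, h2⟩ ⟨-, h3⟩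
    have e := (Sym2.mem_and_mem_iff (τinj x y hx hy n1)).1 ⟨h1, h2⟩
    rw [e, Sym2.mem_iff] at h3
    rcases h3 with h | h
    exacts [τinj x z hx hz n2 h.symm, τinj y z hy hz n3 h.symm]
  · rintro a b x y hx hy n1 ⟨h0, h1⟩ ⟨-, h2⟩
    have e := (Sym2.mem_and_mem_iff (τinj x y hx hy n1)).1 ⟨h1, h2⟩
    have := (hf s(τ a, τ b) h0).1
    rwa [e] at this
  · rintro a b x hx ⟨h0, h1⟩
    obtain ⟨g1, g2⟩ := hf s(τ a, τ b) h0
    obtain ⟨w, hw, e⟩ := τsurj (Sym2.Mem.other h1)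
    have hm : τ w ∈ f s(τ a, τ b) := e ▸ Sym2.other_mem h1
    refine ⟨w, hw, ?_, ?_, ?_, h0, hm⟩
    · rintro rfl; exact g2 _ (by simp) hm
    · rintro rfl; exact g2 _ (by simp) hm
    · rintro rfl; exact Sym2.other_ne (H.not_isDiag_of_mem_edgeSet g1) h1 e.symm
  · intro a b h0
    obtain ⟨g1, g2⟩ := hf s(τ a, τ b) h0
    obtain ⟨w, hw, e⟩ := τsurj (f s(τ a, τ b)).out.1
    have hm : τ w ∈ f s(τ a, τ b) := e ▸ Sym2.out_fst_mem _
    refine ⟨w, hw, ?_, ?_, h0, hm⟩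
    · rintro rfl; exact g2 _ (by simp) hm
    · rintro rfl; exact g2 _ (by simp) hm
  · intro u a b ha hb' n h1 h2
    by_contra hc
    push Not at hc
    have d1 := (hf s(τ a, τ u) h1.symm).2
    have d2 := (hf s(τ u, τ b) h2).2
    have c1 := hc.1 h1
    rw [Sym2.eq_swap] at c1
    refine hb (τ a) (τ u) (τ b) (τinj a b ha hb' n) h1.symm h2 ?_
    rintro w (rfl | rfl | rfl)
    exacts [⟨d1 _ (by simp), hc.2 h2⟩, ⟨d1 _ (by simp), d2 _ (by simp)⟩, ⟨c1, d2 _ (by simp)⟩]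
  · intro a h1 h4
    have e0 : τ 0 = v := hσ 0
    have e1 : τ a = ι ⟨a - 1, by omega⟩ := by
      have := hσ (Fin.succ ⟨a - 1, by omega⟩)
      rw [Fin.cons_succ] at this
      rw [← this]
      simp only [τ]
      congr 1
      ext
      simp only [Fin.ofNat, Fin.val_castLE, Fin.val_succ]
      omega
    show H.Adj (τ 0) (τ a)
    rw [e0, e1]; exact hι _
  · refine hk.trans ?_
    unfold cnt
    rw [Finset.sum_boole, Nat.cast_id]
    refine le_trans (Finset.card_le_card ?_)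
      (Finset.card_image_le (f := fun k => s(τ (ea k), τ (eb k))))
    intro e he
    induction e using Sym2.ind with
    | _ x y =>
      have hxy : H.Adj x y := by simpa using he
      have key : ∀ a b : Fin 8, a ≠ b → ∃ k ∈ Finset.range 28,
          s(Fin.ofNat 8 (ea k), Fin.ofNat 8 (eb k)) = s(a, b) := by decide +kernel
      obtain ⟨k, hk1, hk2⟩ := key (σ.symm x) (σ.symm y) (σ.symm.injective.ne hxy.ne)
      have e2 : s(τ (ea k), τ (eb k)) = s(x, y) := by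
        have := congrArg (Sym2.map σ) hk2
        simpa only [Sym2.map_mk, Equiv.apply_symm_apply] using this
      refine Finset.mem_image.2 ⟨k, Finset.mem_filter.2 ⟨hk1, ?_⟩, e2⟩
      show s(τ (ea k), τ (eb k)) ∈ H.edgeSet
      rw [e2]; exact hxy

end H11.Ps

open H11.Ps in
theorem Pool.Agent.Results.MP_f12eed_co.PathEight.result :
    s 8 (SimpleGraph.pathGraph 3) < p 8 (SimpleGraph.pathGraph 3) :=
  lt_of_le_of_lt s_le (lt_of_lt_of_le (by norm_num) p_ge)
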